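import Pool.Agent.Helper26.AF.Goals

/-!
# Packet AF-PAR (parity of the number of orbits)
-/

set_option autoImplicit false

namespace Pool.Agent.Helper14.AF

open Pool.Agent.Helper26.AF

theorem sameCycle_iff {D : Type} (τ : Equiv.Perm D) (hτ : IsPair τ) (x y : D) :
    τ.SameCycle x y ↔ y = x ∨ y = τ x := by
  have h2 : τ * τ = 1 := by
    ext z
    exact (hτ z).1
  constructor
  · rintro ⟨i, rfl⟩
    rcases Int.even_or_odd' i with ⟨k, hk | hk⟩
    · left
      have h3 : (τ : Equiv.Perm D) ^ (2 : ℤ) = 1 := by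
        rw [zpow_ofNat, pow_two, h2]
      rw [hk, zpow_mul, h3, one_zpow]
      rfl
    · right
      have h3 : (τ : Equiv.Perm D) ^ (2 : ℤ) = 1 := by
        rw [zpow_ofNat, pow_two, h2]
      rw [hk, zpow_add, zpow_mul, h3, one_zpow, zpow_one, one_mul]
  · rintro (rfl | rfl)
    · exact ⟨0, rfl⟩
    · exact ⟨1, rfl⟩

theorem card_eq {D : Type} [Fintype D] (τ : Equiv.Perm D) (hτ : IsPair τ) :
    Fintype.card D = 2 * orb τ := by
  classical
  haveI : Finite (Quotient (Equiv.Perm.SameCycle.setoid τ)) := Quotient.finite _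
  haveI := Fintype.ofFinite (Quotient (Equiv.Perm.SameCycle.setoid τ))
  have h1 : ∀ q : Quotient (Equiv.Perm.SameCycle.setoid τ),
      Nat.card {x : D // Quotient.mk (Equiv.Perm.SameCycle.setoid τ) x = q} = 2 := by
    intro q
    induction q using Quotient.inductionOn with
    | h a =>
      have hm : ∀ x, Quotient.mk (Equiv.Perm.SameCycle.setoid τ) x =
          Quotient.mk (Equiv.Perm.SameCycle.setoid τ) a ↔ (a = x ∨ a = τ x) := by
        intro x
        rw [Quotient.eq]
        exact sameCycle_iff τ hτ x a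
      rw [Nat.card_eq_two_iff]
      refine ⟨⟨a, rfl⟩, ⟨τ a, (hm _).2 (Or.inr (hτ a).1.symm)⟩, ?_, ?_⟩
      · intro h
        exact (hτ a).2 (congrArg Subtype.val h).symm
      · ext ⟨x, hx⟩
        simp only [Set.mem_insert_iff, Set.mem_singleton_iff, Subtype.mk.injEq, Set.mem_univ,
          iff_true]
        rcases (hm x).1 hx with h | h
        · exact Or.inl h.symm
        · right
          rw [h]
          exact (hτ x).1.symm
  have h2 : Nat.card D = Nat.card (Σ q : Quotient (Equiv.Perm.SameCycle.setoid τ),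
      {x : D // Quotient.mk (Equiv.Perm.SameCycle.setoid τ) x = q}) :=
    (Nat.card_congr (Equiv.sigmaFiberEquiv _)).symm
  rw [Nat.card_sigma, Finset.sum_congr rfl fun q _ => h1 q, Finset.sum_const, Finset.card_univ,
    smul_eq_mul, Nat.card_eq_fintype_card] at h2
  rw [h2, orb, Nat.card_eq_fintype_card, mul_comm]

theorem goalPAR (hORBS : Pool.Agent.Helper26.AF.StmtORBS) : Pool.Agent.Helper26.AF.StmtPAR := by
  intro D _ _ σ τ hτ
  have h1 := card_eq τ hτ
  have h2 := hORBS D σ
  have h3 := hORBS D τ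
  have h4 := hORBS D (σ * τ)
  rw [map_mul, Units.val_mul, h2, h3, ← pow_add] at h4
  have h5 : Fintype.card D / 2 = orb τ := by omega
  rw [h5]
  have h6 : Even (Fintype.card D + orb σ + (Fintype.card D + orb τ) +
      (Fintype.card D + orb (σ * τ))) := by
    rw [← neg_one_pow_eq_one_iff_even (R := ℤ) (by norm_num), pow_add, ← h4, ← pow_add]
    exact Even.neg_one_pow ⟨_, rfl⟩
  rw [h1] at h6
  obtain ⟨k, hk⟩ := h6
  exact ⟨k - 3 * orb τ + orb τ - orb τ, by omega⟩

end Pool.Agent.Helper14.AF
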